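import Mathlib
import Pool.Agent.MP_59efd2_nt.StmtPos
import Pool.Agent.MP_59efd2_nt.ub.Inst2

/-!
# MP_59efd2_nt : no zero and no pole away from the centre, level 9, weight 4, prime 7
-/

open Pool.Agent.MP_59efd2_nt in
theorem Pool.Agent.Results.MP_59efd2_nt.AllButCentre.result [Fact (Nat.Prime 7)] :
    ∃ (f : CuspForm (CongruenceSubgroup.Gamma0 9) 4) (a : ℕ → ℤ)
      (ρ : Gal(AlgebraicClosure ℚ/ℚ) →* GL (Fin 2) ℤ_[7])
      (V : ValuationSubring (AlgebraicClosure ℚ))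
      (δ : Fin 2 → (V.decompositionSubgroup ℚ →* ℤ_[7]ˣ)) (α β : ℤ_[7]) (h : SplitsAs ρ V δ),
      IsNewform 9 4 f ∧ (∀ n, coef f n = a n) ∧ IsDeligne 9 4 a ρ ∧ Above V 7 ∧
      CriticalChars 4 (a 7) V δ α β ∧ ∀ j : ℤ, j ≠ 2 → IwRegular h {l | l ∣ 9 * 7} j :=
  CM.Ell.main2
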