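import Mathlib
import Pool.Agent.MP_59efd2_nt.StmtSel
import Pool.Agent.MP_59efd2_nt.lz.Main
import Pool.Agent.MP_59efd2_nt.sel.Main
import Pool.Agent.MP_59efd2_nt.cm.Inst

/-!
# MP_59efd2_nt : the critical invariant has a zero or a pole at the central character
-/

open Pool.Agent.MP_59efd2_nt in
theorem Pool.Agent.Results.MP_59efd2_nt.Counter.result :
    ∃ (p : ℕ) (_ : Fact p.Prime) (N m : ℕ) (_ : NeZero N) (hk : (0 : ℤ) < (2 * m : ℕ))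
      (f : CuspForm (CongruenceSubgroup.Gamma0 N) (2 * m : ℕ)) (a : ℕ → ℤ)
      (ρ : Gal(AlgebraicClosure ℚ/ℚ) →* GL (Fin 2) ℤ_[p])
      (V : ValuationSubring (AlgebraicClosure ℚ))
      (δ : Fin 2 → (V.decompositionSubgroup ℚ →* ℤ_[p]ˣ)) (α β : ℤ_[p]) (h : SplitsAs ρ V δ),
      ¬ p ∣ N ∧ IsNewform N (2 * m : ℕ) f ∧ (∀ n, coef f n = a n) ∧ IsDeligne N (2 * m) a ρ ∧
      Above V p ∧ CriticalChars (2 * m) (a p) V δ α β ∧ ModularForm.L hk f m ≠ 0 ∧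
      IwZeroOrPole h {l | l ∣ N * p} m ∧ SelmerUndefinedOrZero h m := by
  obtain ⟨p, hp, N, m, hN, hk, f, a, ρ, V, δ, α, β, h1, h2, h3, h4, h5, h6, h7, h8, h9, h10, h11⟩ :=
    CM.inst
  obtain ⟨e1, e2⟩ := lz.sel p h9 m ρ h4.1 h11 V h5 δ h6 β h7.2.2.2.1 h10
  exact ⟨p, hp, N, m, hN, hk, f, a, ρ, V, δ, α, β, h6, h1, h2, h3, h4, h5, h7, h8,
    lz.general p h9 m ρ h4.1 h11 V h5 δ h6 β h7.2.2.2.1 h10 _, e1 0, e1 1,
    e2.imp (fun e z => congrArg (fun l => ModuleCat.Hom.hom l z) e)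
      fun e z => congrArg (fun l => ModuleCat.Hom.hom l z) e⟩
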